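import Pool.Agent.Lib.MP_abd978_an.PL.Pre
import Pool.Agent.Lib.MP_abd978_an.PL.H2.Stokes
import Pool.Agent.Lib.MP_abd978_an.PL.H65.Stream

/-!
# Project PLANAR: all modules together
-/

set_option autoImplicit false

namespace Pool.Agent.Lib.MP_abd978_an.PL

/-- unique continuation for harmonic functions in the plane -/
theorem ucb : UcbStatement := ucb_of H2.stokes H65.stream

/-- the final theorem -/
theorem planar : PlanarStatement := planar_of H2.stokes H65.stream

end Pool.Agent.Lib.MP_abd978_an.PL
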