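import Pool.Agent.Lib.MP_abd978_an.Interfaces

/-!
# Project PLANAR: unique continuation in the plane and the Rado property for `n = 2`

Internal notions. `E 2` is the plane, `rot (a₁, a₂) = (-a₂, a₁)`.
-/

set_option autoImplicit false

open MeasureTheory Metric Set Filter Topology ContDiff
open scoped Gradient RealInnerProductSpace

namespace Pool.Agent.Lib.MP_abd978_an.PL

/-- rotation by a right angle -/
noncomputable def rot (a : E 2) : E 2 := !₂[-a 1, a 0]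

theorem rot_zero_apply (a : E 2) : rot a 0 = -a 1 := rfl

theorem rot_one_apply (a : E 2) : rot a 1 = a 0 := rfl

theorem inner_eq (a b : E 2) : ⟪a, b⟫ = a 0 * b 0 + a 1 * b 1 := by
  simp [PiLp.inner_apply, Fin.sum_univ_two, mul_comm]

theorem inner_rot_self (a : E 2) : ⟪rot a, a⟫ = 0 := by
  rw [inner_eq, rot_zero_apply, rot_one_apply]; ring

theorem norm_rot (a : E 2) : ‖rot a‖ = ‖a‖ := by
  rw [EuclideanSpace.norm_eq, EuclideanSpace.norm_eq]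
  simp [Fin.sum_univ_two, rot_zero_apply, rot_one_apply, add_comm]

/-- `w` and the dual weight `w^(-1/(p-1))` are integrable on the bounded open set `D` -/
structure Wt (p : ℝ) (w : E 2 → ℝ) (D : Set (E 2)) : Prop where
  hp : 1 < p
  isOpen : IsOpen D
  bdd : Bornology.IsBounded D
  pos : ∀ᵐ x ∂(volume.restrict D), 0 < w x
  int : IntegrableOn w D
  dual : IntegrableOn (fun x => w x ^ (-(1 / (p - 1)))) D

/-- A solution `u` with gradient `V` and flux `a` (a divergence free field) and a stream function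
`v` of `u` (`∇ v = rot a`) in the bounded open set `D`. -/
structure Pair (p α β : ℝ) (w : E 2 → ℝ) (D : Set (E 2)) (u v : E 2 → ℝ) (V a : E 2 → E 2) :
    Prop where
  wt : Wt p w D
  hα : 0 < α
  hβ : 0 < β
  sobu : IsSob (wm w) p D u V
  sobv : IsSob volume 1 D v fun x => rot (a x)
  ell : ∀ᵐ x ∂(volume.restrict D), α * (w x * ‖V x‖ ^ p) ≤ ⟪a x, V x⟫
  bdd : ∀ᵐ x ∂(volume.restrict D), ‖a x‖ ≤ β * (w x * ‖V x‖ ^ (p - 1))

/-- the scales -/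
noncomputable def sc (p : ℝ) (j : ℕ) : ℝ := Real.exp (-(p / (p - 1)) * j) / j

noncomputable def tc (p : ℝ) (j : ℕ) : ℝ := Real.exp (-p * j) / j

/-- Three functions on the plane with the properties needed in the main estimate. -/
structure Tri (p C₁ : ℝ) (b c K : ℝ × ℝ → ℝ) : Prop where
  smb : ContDiff ℝ 1 b
  csb : HasCompactSupport b
  smc : ContDiff ℝ 1 c
  csc : HasCompactSupport c
  smK : Continuous K
  csK : HasCompactSupport K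
  nonneg : ∀ y, 0 ≤ K y
  div : ∀ y, K y - C₁ ≤ fderiv ℝ b y (1, 0) + fderiv ℝ c y (0, 1)
  boundb : ∀ y, |b y| ^ (p / (p - 1)) ≤ C₁ * K y
  boundc : ∀ y, |c y| ^ p ≤ C₁ * K y

/-! ### Statements of the modules -/

/-- STOKES -/
def StokesStatement : Prop := ∀ (D : Set (E 2)) (Φ W : E 2 → ℝ), IsOpen D → ContDiff ℝ 1 Φ →
  HasCompactSupport Φ → tsupport Φ ⊆ D → ContDiffOn ℝ ∞ W D →
    ∫ x, ⟪∇ Φ x, rot (∇ W x)⟫ = 0

/-- STREAM -/
def StreamStatement : Prop := ∀ (z : E 2) (r r' : ℝ) (a : E 2 → E 2), 0 < r' → r' < r →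
  IntegrableOn a (ball z r) → (∀ φ, Test (ball z r) φ → ∫ x, ⟪a x, ∇ φ x⟫ = 0) →
    ∃ v : E 2 → ℝ, IsSob volume 1 (ball z r') v fun x => rot (a x)

/-- EMB: Hölder's inequality -/
def EmbStatement : Prop := ∀ (p : ℝ) (w : E 2 → ℝ) (D : Set (E 2)) (u : E 2 → ℝ)
  (V : E 2 → E 2), Wt p w D → IsSob (wm w) p D u V → IsSob volume 1 D u V

/-- CHTWO: chain rule for a function of two Sobolev functions -/
def ChtwoStatement : Prop := ∀ (D : Set (E 2)) (u v : E 2 → ℝ) (V W : E 2 → E 2)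
  (Φ : ℝ × ℝ → ℝ), IsOpen D → Bornology.IsBounded D → IsSob volume 1 D u V →
  IsSob volume 1 D v W → ContDiff ℝ ∞ Φ → HasCompactSupport Φ →
    IsSob volume 1 D (fun x => Φ (u x, v x)) fun x =>
      fderiv ℝ Φ (u x, v x) (1, 0) • V x + fderiv ℝ Φ (u x, v x) (0, 1) • W x

/-- IDENT: the two identities -/
def IdentStatement : Prop := ∀ (p α β : ℝ) (w : E 2 → ℝ) (D : Set (E 2)) (u v : E 2 → ℝ)
  (V a : E 2 → E 2) (b : ℝ × ℝ → ℝ) (η : E 2 → ℝ), Pair p α β w D u v V a →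
  ContDiff ℝ 1 b → HasCompactSupport b → Test D η →
    (∫ x, η x * (fderiv ℝ b (u x, v x) (1, 0) * ⟪a x, V x⟫) =
      -∫ x, b (u x, v x) * ⟪a x, ∇ η x⟫) ∧
    (∫ x, η x * (fderiv ℝ b (u x, v x) (0, 1) * ⟪a x, V x⟫) =
      -∫ x, b (u x, v x) * ⟪∇ η x, rot (V x)⟫)

/-- TARG: construction of the target functions -/
def TargStatement : Prop := ∀ p : ℝ, 1 < p → ∃ C₁ c₁ : ℝ, 0 < C₁ ∧ 0 < c₁ ∧ ∃ j₀ : ℕ, 1 ≤ j₀ ∧
  ∀ N : ℕ, ∃ b c K : ℝ × ℝ → ℝ, Tri p C₁ b c K ∧ ∀ j : ℕ, j₀ ≤ j → j ≤ N → ∀ s t : ℝ,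
    |s| ≤ 2 * sc p j → |t| ≤ 2 * tc p j → (sc p j ≤ |s| ∨ tc p j ≤ |t|) →
      c₁ * Real.exp (p * (p / (p - 1)) * j) ≤ K (s, t)

/-- MEST: the main estimate; the constant does not depend on `b`, `c`, `K` -/
def MestStatement : Prop := ∀ (p α β : ℝ) (w : E 2 → ℝ) (z : E 2) (r r' : ℝ) (u v : E 2 → ℝ)
  (V a : E 2 → E 2) (C₁ : ℝ), Pair p α β w (ball z r) u v V a → 0 < r' → r' < r → 0 < C₁ →
  ∃ C : ℝ, ∀ b c K : ℝ × ℝ → ℝ, Tri p C₁ b c K →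
    ∫ x in ball z r', K (u x, v x) * (w x * ‖V x‖ ^ p) ≤ C

/-- POIN: the Poincaré inequality in `L¹` in the form needed here -/
def PoinStatement : Prop := ∀ (n : ℕ) (z : E n) (r m : ℝ), 0 < r → 0 < m → ∃ c : ℝ, 0 < c ∧
  ∀ (g : E n → ℝ) (G : E n → E n), IsSob volume 1 (ball z r) g G →
  m ≤ volume.real {x | x ∈ ball z r ∧ g x = 1} → m ≤ volume.real {x | x ∈ ball z r ∧ g x = 0} →
    c ≤ ∫ x in ball z r, ‖G x‖

/-- LAYER: one layer -/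
def LayerStatement : Prop := ∀ (p α β : ℝ) (w : E 2 → ℝ) (z : E 2) (r : ℝ) (u v : E 2 → ℝ)
  (V a : E 2 → E 2) (ε m : ℝ), Pair p α β w (ball z r) u v V a → 0 < r → 0 < ε → 0 < m →
  m ≤ volume.real {x | x ∈ ball z r ∧ u x = 0 ∧ v x = 0} →
  m ≤ volume.real {x | x ∈ ball z r ∧ ε ≤ |u x|} →
  ∃ c : ℝ, 0 < c ∧ ∀ j : ℕ, 1 ≤ j → 2 * sc p j ≤ ε →
    c ≤ (sc p j)⁻¹ * (∫ x in {x | x ∈ ball z r ∧ sc p j ≤ |u x| ∧ |u x| ≤ 2 * sc p j ∧
        |v x| ≤ 2 * tc p j}, ‖V x‖) +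
      (tc p j)⁻¹ * ∫ x in {x | x ∈ ball z r ∧ |u x| ≤ 2 * sc p j ∧ tc p j ≤ |v x| ∧
        |v x| ≤ 2 * tc p j}, ‖a x‖

/-- LUC: local unique continuation for pairs -/
def LucStatement : Prop := ∀ (p α β : ℝ) (w : E 2 → ℝ) (z : E 2) (r r' : ℝ) (u v : E 2 → ℝ)
  (V a : E 2 → E 2), Pair p α β w (ball z r) u v V a → 0 < r' → r' < r →
  0 < volume.real {x | x ∈ ball z r' ∧ u x = 0 ∧ v x = 0} →
    ∀ᵐ x ∂(volume.restrict (ball z r')), u x = 0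

/-- UCB: unique continuation for harmonic functions in the plane -/
def UcbStatement : Prop := ∀ (p : ℝ) (w : E 2 → ℝ) (a : E 2 → E 2 → E 2) (α β : ℝ)
  (U : Set (E 2)) (u : E 2 → ℝ) (x₀ : E 2) (c : ℝ), LocallyIntegrable w → (∀ᵐ x, 0 < w x) →
  Op p (wm w) a α β → IsOpen U → IsPreconnected U →
  LocallyIntegrableOn (fun x => w x ^ (-(1 / (p - 1)))) U → Harm (wm w) p a U u → x₀ ∈ U →
  (∀ᶠ x in 𝓝 x₀, u x = c) → ∀ x ∈ U, u x = c

/-- NCON: in every bounded open set there is a nonconstant harmonic function (any dimension,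
any weight) -/
def NconStatement : Prop := ∀ (n : ℕ) (p : ℝ) (μ : Measure (E n)) (a : E n → E n → E n)
  (α β : ℝ) (O : Set (E n)), 1 ≤ n → Op p μ a α β → IsOpen O → O.Nonempty →
  Bornology.IsBounded O → ∃ h : E n → ℝ, Harm μ p a O h ∧ ∃ x ∈ O, ∃ y ∈ O, h x ≠ h y

/-- the final theorem -/
def PlanarStatement : Prop := ∀ (p : ℝ) (Ω Ω₀ : Set (E 2)) (w' : E 2 → ℝ)
  (A' : E 2 → E 2 → E 2) (w : E 2 → ℝ) (A : E 2 → E 2 → E 2) (f : E 2 → E 2), 1 < p →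
  IsOpen Ω → IsOpen Ω₀ → IsPreconnected Ω₀ → Ω₀ ⊆ Ω → Ω ⊆ closure Ω₀ →
  ClassA p w' A' → ClassA p w A →
  LocallyIntegrableOn (fun x => w' x ^ (-(1 / (p - 1)))) Ω₀ → IsMorphism p w' A' w A Ω f →
    (∃ y, ∀ x ∈ Ω, f x = y) ∨
    ((∀ y, interior (Ω ∩ f ⁻¹' {y}) = ∅) ∧
      ∀ U : Set (E 2), IsOpen U → U ⊆ Ω → IsOpen (f '' U))

end Pool.Agent.Lib.MP_abd978_an.PL
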