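import Pool.Agent.Lib.MP_abd978_an.All
import Pool.Agent.Lib.MP_abd978_an.PL.H19.Layer
import Pool.Agent.Lib.MP_abd978_an.PL.H19.Poin
import Pool.Agent.Lib.MP_abd978_an.PL.H48.Mest
import Pool.Agent.Lib.MP_abd978_an.PL.H61.Chtwo
import Pool.Agent.Lib.MP_abd978_an.PL.H61.Ident
import Pool.Agent.Lib.MP_abd978_an.PL.H65.Targ
import Pool.Agent.Lib.MP_abd978_an.PL.H94.Fin
import Pool.Agent.Lib.MP_abd978_an.PL.H94.Luc
import Pool.Agent.Lib.MP_abd978_an.PL.H94.Ucb
import Pool.Agent.Lib.MP_abd978_an.PL.H98.Emb
import Pool.Agent.Lib.MP_abd978_an.PL.H98.Ncon

/-!
# Project PLANAR: the modules together (everything but STOKES and STREAM)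
-/

set_option autoImplicit false

namespace Pool.Agent.Lib.MP_abd978_an.PL

/-- unique continuation in the plane -/
theorem ucb_of (hstokes : StokesStatement) (hstream : StreamStatement) : UcbStatement := by
  have hcut : CutStatement := H10.cut
  have hchain : ChainStatement := H58.chain
  have hintg : IntgStatement := H86.intg
  have hpair : PairStatement := H86.pair
  have hweak : WeakStatement := weak hchain hpair
  have hcacc : CaccStatement := H1.cacc hweak hintg
  have hemb : EmbStatement := H98.emb
  have hident : IdentStatement := H61.ident hstokes
  have hmest : MestStatement := H48.mest hident hemb hcut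
  have hlayer : LayerStatement := H19.layer H19.poin H61.chtwo hemb
  have hluc : LucStatement := H94.luc hmest H65.targ hlayer
  exact H94.ucb hstream hluc hcut hcacc

theorem planar_of (hstokes : StokesStatement) (hstream : StreamStatement) :
    PlanarStatement := by
  have hcut : CutStatement := H10.cut
  have hchain : ChainStatement := H58.chain
  have hbchain : BchainStatement := H58.bchain
  have hintg : IntgStatement := H86.intg
  have hpair : PairStatement := H86.pair
  have hsob1 : Sob1Statement := H36.sob1
  have hsob2 : Sob2Statement := H36.sob2
  have hpoix : PoixStatement := H55.poix hchain hcut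
  have hweak : WeakStatement := weak hchain hpair
  have hcacc : CaccStatement := H1.cacc hweak hintg
  have hcacp : CacpStatement := H86.cacp hcacc
  have hmos1 : Mos1Statement := H11.mos1 hcut hchain hsob2 hcacp
  have hmos2 : Mos2Statement := H11.mos2 hmos1
  have hdens : DensStatement := H55.dens hcacc hcut hpoix hmos2
  have hosc : OscStatement := H72.osc hdens
  have hrep : RepStatement := H49.rep_statement hosc
  have halt : AltStatement := H98.alt
  have huci : UciStatement := H98.uci
  have hnest : NestStatement := H98.nest huci
  have hminty : MintyStatement := H98.minty halt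
  have hopl : OplStatement := H65.opl hintg
  have hdir : DirStatement := H65.dir hintg hsob1 hnest hminty hopl
  have hncon : NconStatement := H98.ncon hdir hrep hcut hbchain hsob1 hpair hcacc hintg hpoix
  exact H94.fin (ucb_of hstokes hstream) hncon all H34.norm

end Pool.Agent.Lib.MP_abd978_an.PL
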