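import Pool.Agent.Lib.MP_abd978_an.PL.Defs

/-!
# Project PLANAR: toolbox
-/

set_option autoImplicit false

open MeasureTheory Metric Set Filter Topology ContDiff
open scoped Gradient RealInnerProductSpace ENNReal

namespace Pool.Agent.Lib.MP_abd978_an.PL

/-! ### Rotation -/

/-- rotation as a linear map -/
noncomputable def rotL : E 2 →L[ℝ] E 2 :=
  LinearMap.toContinuousLinearMap
    { toFun := rot
      map_add' := by
        intro a b; ext i; fin_cases i
        · change -(a + b) 1 = -a 1 + -b 1; simp; ring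
        · change (a + b) 0 = a 0 + b 0; simp
      map_smul' := by
        intro c a; ext i; fin_cases i
        · change -(c • a) 1 = c * -a 1; simp
        · change (c • a) 0 = c * a 0; simp }

theorem rotL_apply (a : E 2) : rotL a = rot a := rfl

theorem continuous_rot : Continuous rot := rotL.continuous

theorem rot_add (a b : E 2) : rot (a + b) = rot a + rot b := rotL.map_add a b

theorem rot_sub (a b : E 2) : rot (a - b) = rot a - rot b := rotL.map_sub a b

theorem rot_neg (a : E 2) : rot (-a) = -rot a := rotL.map_neg a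

theorem rot_smul (c : ℝ) (a : E 2) : rot (c • a) = c • rot a := rotL.map_smul c a

theorem rot_zero : rot 0 = 0 := rotL.map_zero

theorem rot_rot (a : E 2) : rot (rot a) = -a := by
  ext i; fin_cases i
  · change -(rot a 1) = -(a 0); rw [rot_one_apply]
  · change rot a 0 = -(a 1); rw [rot_zero_apply]

theorem inner_rot_rot (a b : E 2) : ⟪rot a, rot b⟫ = ⟪a, b⟫ := by
  rw [inner_eq, inner_eq, rot_zero_apply, rot_one_apply, rot_zero_apply, rot_one_apply]; ring

theorem inner_rot_left (a b : E 2) : ⟪rot a, b⟫ = -⟪a, rot b⟫ := by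
  rw [inner_eq, inner_eq, rot_zero_apply, rot_one_apply, rot_zero_apply, rot_one_apply]; ring

/-! ### Weights -/

variable {p : ℝ} {w : E 2 → ℝ} {D : Set (E 2)}

theorem wm_restrict (hD : IsOpen D) :
    (wm w).restrict D = (volume.restrict D).withDensity fun x => ENNReal.ofReal (w x) := by
  rw [wm, restrict_withDensity hD.measurableSet]

theorem Wt.aem (h : Wt p w D) :
    AEMeasurable (fun x => ENNReal.ofReal (w x)) (volume.restrict D) :=
  h.int.aestronglyMeasurable.aemeasurable.ennreal_ofReal

theorem Wt.ac (h : Wt p w D) : volume.restrict D ≪ (wm w).restrict D := by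
  rw [wm_restrict h.isOpen]
  refine withDensity_absolutelyContinuous' h.aem ?_
  filter_upwards [h.pos] with x hx
  simpa using hx

theorem Wt.ac' (h : Wt p w D) : (wm w).restrict D ≪ volume.restrict D := by
  rw [wm_restrict h.isOpen]
  exact withDensity_absolutelyContinuous _ _

theorem Wt.mono (h : Wt p w D) {D' : Set (E 2)} (hD' : IsOpen D') (hs : D' ⊆ D) : Wt p w D' where
  hp := h.hp
  isOpen := hD'
  bdd := h.bdd.subset hs
  pos := ae_restrict_of_ae_restrict_of_subset hs h.pos
  int := h.int.mono_set hs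
  dual := h.dual.mono_set hs

/-- measurability passes from `wm w` to the Lebesgue measure -/
theorem Wt.aesm {F : Type*} [TopologicalSpace F] (h : Wt p w D) {V : E 2 → F}
    (hV : AEStronglyMeasurable V ((wm w).restrict D)) :
    AEStronglyMeasurable V (volume.restrict D) := by
  obtain ⟨g, hg, hVg⟩ := hV
  exact ⟨g, hg, h.ac.ae_le hVg⟩

theorem ofReal_ne_zero' {p : ℝ} (hp : 1 < p) : ENNReal.ofReal p ≠ 0 := by
  rw [Ne, ENNReal.ofReal_eq_zero, not_le]; linarith

theorem toReal_ofReal' {p : ℝ} (hp : 1 < p) : (ENNReal.ofReal p).toReal = p :=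
  ENNReal.toReal_ofReal (by linarith)

/-- `w |V|^p` is integrable -/
theorem Wt.integrable {F : Type*} [NormedAddCommGroup F] (h : Wt p w D) {V : E 2 → F}
    (hV : MemLp V (ENNReal.ofReal p) ((wm w).restrict D)) :
    IntegrableOn (fun x => w x * ‖V x‖ ^ p) D := by
  have h1 : Integrable (fun x => ‖V x‖ ^ p) ((wm w).restrict D) := by
    have := hV.integrable_norm_rpow (ofReal_ne_zero' h.hp) ENNReal.ofReal_ne_top
    rwa [toReal_ofReal' h.hp] at this
  rw [wm_restrict h.isOpen] at h1
  rw [integrable_withDensity_iff_integrable_smul₀' h.aem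
    (Eventually.of_forall fun x => ENNReal.ofReal_lt_top)] at h1
  refine h1.congr ?_
  filter_upwards [h.pos] with x hx
  rw [ENNReal.toReal_ofReal hx.le, smul_eq_mul]

theorem Wt.integral_eq {F : Type*} [NormedAddCommGroup F] (h : Wt p w D) (V : E 2 → F) :
    ∫ x in D, ‖V x‖ ^ p ∂wm w = ∫ x in D, w x * ‖V x‖ ^ p := by
  rw [wm_restrict h.isOpen, integral_withDensity_eq_integral_toReal_smul₀ h.aem
    (Eventually.of_forall fun x => ENNReal.ofReal_lt_top)]
  refine integral_congr_ae ?_
  filter_upwards [h.pos] with x hx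
  rw [ENNReal.toReal_ofReal hx.le, smul_eq_mul]

/-- the elementary inequality behind everything: `∫ |V| ≤ (∫ w |V|^p)^(1/p) (∫ σ)^(1/q)`, with an
additional factor `K` -/
theorem Wt.holder {F : Type*} [NormedAddCommGroup F] (h : Wt p w D) {V : E 2 → F} {K : E 2 → ℝ}
    (hK : ∀ x, 0 ≤ K x)
    (hint : IntegrableOn (fun x => K x * (w x * ‖V x‖ ^ p)) D) :
    IntegrableOn (fun x => K x ^ (1 / p) * ‖V x‖) D ∧
    ∫ x in D, K x ^ (1 / p) * ‖V x‖ ≤ (∫ x in D, K x * (w x * ‖V x‖ ^ p)) ^ (1 / p) *
      (∫ x in D, w x ^ (-(1 / (p - 1)))) ^ (1 / (p / (p - 1))) := by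
  have hp := h.hp
  have hp0 : (0 : ℝ) < p := by linarith
  have hp1 : (0 : ℝ) < p - 1 := by linarith
  have hq0 : (0 : ℝ) < p / (p - 1) := by positivity
  have hpq : p.HolderConjugate (p / (p - 1)) := Real.HolderConjugate.conjExponent hp
  have hwm : AEStronglyMeasurable w (volume.restrict D) := h.int.aestronglyMeasurable
  set f : E 2 → ℝ := fun x => (K x * (w x * ‖V x‖ ^ p)) ^ (1 / p) with hf
  set g : E 2 → ℝ := fun x => (w x ^ (-(1 / (p - 1)))) ^ (1 / (p / (p - 1))) with hg
  have hfg : (fun x => K x ^ (1 / p) * ‖V x‖) =ᵐ[volume.restrict D] fun x => f x * g x := by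
    filter_upwards [h.pos] with x hx
    simp only [hf, hg]
    rw [Real.mul_rpow (hK x) (by positivity), Real.mul_rpow hx.le (by positivity),
      ← Real.rpow_mul (norm_nonneg _), mul_one_div_cancel hp0.ne', Real.rpow_one,
      ← Real.rpow_mul hx.le]
    have : w x ^ (1 / p) * w x ^ (-(1 / (p - 1)) * (1 / (p / (p - 1)))) = 1 := by
      rw [← Real.rpow_add hx]
      have : 1 / p + -(1 / (p - 1)) * (1 / (p / (p - 1))) = 0 := by
        field_simp; ring
      rw [this, Real.rpow_zero]
    calc K x ^ (1 / p) * ‖V x‖ = K x ^ (1 / p) * ‖V x‖ * 1 := by ring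
      _ = K x ^ (1 / p) * ‖V x‖ *
          (w x ^ (1 / p) * w x ^ (-(1 / (p - 1)) * (1 / (p / (p - 1))))) := by rw [this]
      _ = _ := by ring
  have hf0 : 0 ≤ᵐ[volume.restrict D] f := by
    filter_upwards [h.pos] with x hx
    have := hK x
    simp only [hf]; positivity
  have hg0 : 0 ≤ᵐ[volume.restrict D] g := by
    filter_upwards [h.pos] with x hx
    simp only [hg]; positivity
  have hfm : AEStronglyMeasurable f (volume.restrict D) :=
    (hint.aestronglyMeasurable.aemeasurable.pow_const _).aestronglyMeasurable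
  have hgm : AEStronglyMeasurable g (volume.restrict D) :=
    (h.dual.aestronglyMeasurable.aemeasurable.pow_const _).aestronglyMeasurable
  have hfp : (fun x => f x ^ p) =ᵐ[volume.restrict D] fun x => K x * (w x * ‖V x‖ ^ p) := by
    filter_upwards [h.pos] with x hx
    have := hK x
    simp only [hf]
    rw [← Real.rpow_mul (by positivity), one_div_mul_cancel hp0.ne', Real.rpow_one]
  have hgq : (fun x => g x ^ (p / (p - 1))) =ᵐ[volume.restrict D]
      fun x => w x ^ (-(1 / (p - 1))) := by
    filter_upwards [h.pos] with x hx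
    simp only [hg]
    rw [← Real.rpow_mul (by positivity), one_div_mul_cancel hq0.ne', Real.rpow_one]
  have hfL : MemLp f (ENNReal.ofReal p) (volume.restrict D) := by
    rw [← integrable_norm_rpow_iff hfm (ofReal_ne_zero' hp) ENNReal.ofReal_ne_top,
      toReal_ofReal' hp]
    refine Integrable.congr hint ?_
    filter_upwards [hfp, hf0] with x hx h0
    rw [Real.norm_of_nonneg h0]; exact hx.symm
  have hgL : MemLp g (ENNReal.ofReal (p / (p - 1))) (volume.restrict D) := by
    have hq1 : 1 < p / (p - 1) := hpq.symm.lt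
    rw [← integrable_norm_rpow_iff hgm (ofReal_ne_zero' hq1) ENNReal.ofReal_ne_top,
      toReal_ofReal' hq1]
    refine Integrable.congr h.dual ?_
    filter_upwards [hgq, hg0] with x hx h0
    rw [Real.norm_of_nonneg h0]; exact hx.symm
  have key := integral_mul_le_Lp_mul_Lq_of_nonneg hpq hf0 hg0 hfL hgL
  rw [integral_congr_ae hfp, integral_congr_ae hgq] at key
  refine ⟨?_, ?_⟩
  · refine Integrable.congr ?_ hfg.symm
    have h1 : ENNReal.HolderTriple (ENNReal.ofReal p) (ENNReal.ofReal (p / (p - 1))) 1 := by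
      have := hpq.ennrealOfReal
      exact this
    exact hfL.integrable_mul hgL
  · rw [integral_congr_ae hfg]; exact key

/-- the dual exponent of the dual exponent -/
theorem dual_exp (hp : 1 < p) : p / (p - 1) / (p / (p - 1) - 1) = p := by
  have : p - 1 ≠ 0 := by linarith
  field_simp
  ring_nf
  try norm_num

theorem one_lt_dual (hp : 1 < p) : 1 < p / (p - 1) :=
  (one_lt_div (by linarith)).2 (by linarith)

theorem one_div_dual (hp : 1 < p) : 1 / (p / (p - 1) - 1) = p - 1 := by
  have h1 : p - 1 ≠ 0 := by linarith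
  have h2 : p / (p - 1) - 1 = 1 / (p - 1) := by field_simp; ring
  rw [h2, one_div_one_div]

/-- the dual weight of the dual weight is the weight -/
theorem Wt.dual_dual (h : Wt p w D) :
    (fun x => (w x ^ (-(1 / (p - 1)))) ^ (-(1 / (p / (p - 1) - 1)))) =ᵐ[volume.restrict D] w := by
  have hp1 : p - 1 ≠ 0 := by have := h.hp; linarith
  filter_upwards [h.pos] with x hx
  rw [one_div_dual h.hp, ← Real.rpow_mul hx.le]
  have : -(1 / (p - 1)) * -(p - 1) = 1 := by field_simp
  rw [this, Real.rpow_one]

/-- the dual weight satisfies the same hypotheses for the dual exponent -/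
theorem Wt.dualWt (h : Wt p w D) : Wt (p / (p - 1)) (fun x => w x ^ (-(1 / (p - 1)))) D where
  hp := one_lt_dual h.hp
  isOpen := h.isOpen
  bdd := h.bdd
  pos := by filter_upwards [h.pos] with x hx; positivity
  int := h.dual
  dual := h.int.congr_fun_ae h.dual_dual.symm

variable {α β : ℝ} {u v : E 2 → ℝ} {V a : E 2 → E 2}

theorem Pair.mono (h : Pair p α β w D u v V a) {D' : Set (E 2)} (hD' : IsOpen D')
    (hs : D' ⊆ D) : Pair p α β w D' u v V a where
  wt := h.wt.mono hD' hs
  hα := h.hα
  hβ := h.hβ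
  sobu := h.sobu.mono hs
  sobv := h.sobv.mono hs
  ell := ae_restrict_of_ae_restrict_of_subset hs h.ell
  bdd := ae_restrict_of_ae_restrict_of_subset hs h.bdd

theorem Pair.aesm_u (h : Pair p α β w D u v V a) : AEStronglyMeasurable u (volume.restrict D) :=
  h.wt.aesm h.sobu.1.aestronglyMeasurable

theorem Pair.aesm_V (h : Pair p α β w D u v V a) : AEStronglyMeasurable V (volume.restrict D) :=
  h.wt.aesm h.sobu.2.1.aestronglyMeasurable

theorem Pair.aesm_v (h : Pair p α β w D u v V a) : AEStronglyMeasurable v (volume.restrict D) :=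
  h.sobv.1.aestronglyMeasurable

theorem Pair.aesm_a (h : Pair p α β w D u v V a) : AEStronglyMeasurable a (volume.restrict D) := by
  have h1 : AEStronglyMeasurable (fun x => rot (rot (a x))) (volume.restrict D) :=
    continuous_rot.comp_aestronglyMeasurable h.sobv.2.1.aestronglyMeasurable
  have h2 : a = fun x => -rot (rot (a x)) := by funext x; rw [rot_rot, neg_neg]
  rw [h2]; exact h1.neg

/-- `w |V|^p` is integrable -/
theorem Pair.int_energy (h : Pair p α β w D u v V a) :
    IntegrableOn (fun x => w x * ‖V x‖ ^ p) D :=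
  h.wt.integrable h.sobu.2.1

/-- `σ |a|^q ≤ β^q w |V|^p` -/
theorem Pair.dual_bound (h : Pair p α β w D u v V a) : ∀ᵐ x ∂(volume.restrict D),
    w x ^ (-(1 / (p - 1))) * ‖a x‖ ^ (p / (p - 1)) ≤ β ^ (p / (p - 1)) * (w x * ‖V x‖ ^ p) := by
  have hp := h.wt.hp
  have hp1 : (0 : ℝ) < p - 1 := by linarith
  have hq : 0 < p / (p - 1) := by positivity
  filter_upwards [h.wt.pos, h.bdd] with x hx hb
  have h1 : ‖a x‖ ^ (p / (p - 1)) ≤ (β * (w x * ‖V x‖ ^ (p - 1))) ^ (p / (p - 1)) :=
    Real.rpow_le_rpow (norm_nonneg _) hb hq.le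
  have h2 : (β * (w x * ‖V x‖ ^ (p - 1))) ^ (p / (p - 1)) =
      β ^ (p / (p - 1)) * (w x ^ (p / (p - 1)) * ‖V x‖ ^ p) := by
    rw [Real.mul_rpow h.hβ.le (by positivity), Real.mul_rpow hx.le (by positivity),
      ← Real.rpow_mul (norm_nonneg _)]
    congr 3; field_simp
  rw [h2] at h1
  have h3 : w x ^ (-(1 / (p - 1))) * w x ^ (p / (p - 1)) = w x := by
    rw [← Real.rpow_add hx]
    have : -(1 / (p - 1)) + p / (p - 1) = 1 := by field_simp; ring
    rw [this, Real.rpow_one]
  calc w x ^ (-(1 / (p - 1))) * ‖a x‖ ^ (p / (p - 1))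
      ≤ w x ^ (-(1 / (p - 1))) * (β ^ (p / (p - 1)) * (w x ^ (p / (p - 1)) * ‖V x‖ ^ p)) :=
        mul_le_mul_of_nonneg_left h1 (by positivity)
    _ = β ^ (p / (p - 1)) * ((w x ^ (-(1 / (p - 1))) * w x ^ (p / (p - 1))) * ‖V x‖ ^ p) := by ring
    _ = _ := by rw [h3]

theorem Pair.int_a (h : Pair p α β w D u v V a) : IntegrableOn a D := by
  have h1 : IntegrableOn (fun x => rot (a x)) D := by
    have := h.sobv.2.1
    rw [ENNReal.ofReal_one] at this
    exact memLp_one_iff_integrable.1 this
  refine Integrable.mono h1 h.aesm_a (Eventually.of_forall fun x => ?_)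
  rw [norm_rot]

end Pool.Agent.Lib.MP_abd978_an.PL
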